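import Pool.Agent.Run7.h527.TP.Cb
import Pool.Agent.Results.MP_7ecdd4_nt.DivisorsInWindows

/-!
# The strong `n`-conjecture for tuples with a divisor of the product near aliquot sums and arithmetic derivatives

Let `g(m)` be the sum of the proper divisors of `m`, the cototient `m - φ(m)`, the arithmetic derivative `m'` (with `p' = 1`
for primes and Leibniz' rule), or any positive combination `α m + β f(m)` with `f = σ`, `φ` or the arithmetic derivative. Let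
`G` have steps bounded below by a positive constant and growth at most `v^d`. Let `n ≥ 4`, `0 ≤ θ < τ ≤ 1` and `A > 0`. There
is `M` (depending on `n`, `d`, `θ`, `τ`, `A`) such that for all `m ≤ N` which have two prime factors `p ≠ q`, not dividing
`m / (p q) ≥ 2`, with `p q ≥ m^τ`, but at most `N^(1 - δ)` of them, EVERY tuple `x` of nonzero pairwise coprime integers with
sum zero, for which `x_1 ⋯ x_n` is divisible by an integer `t` with `|t - G (g m)| ≤ g(m)^θ` and `max |x_j| ≤ t ^ A`, satisfies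
`max |x_j| ≤ rad (x_1 ⋯ x_n) ^ M`. For a given `M ≥ 10 / (3 n - 2)` this holds if
`d A (3 n - 5) / ((3 n - 2) M) + θ < τ`. Consequently: for every `ε > 0` there are `M` and `θ > 0` (depending on `n`, `d`, `A`,
`ε` only) such that this holds for ALL `m ≤ N` but `ε N`.

Proof. Write `m = k p q`. Then `g(m) = a p q + b (p + q) + c` with integers `a ≠ 0`, `b`, `c` which depend on `k` only, and
`(a p + b) (a q + b) = a g(m) + b² - a c`. So for given `k ≤ N^(1 - τ)` every value is taken for at most `N^ε` pairs `p`, `q`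
(the tool `Run7/h527/TP`), and the size of the exceptional set is bounded by the starting theorem `FewExceptions`. For small
`τ` all but `ε N` integers have two such primes, by the second moment of the number of the prime factors in
`(N^(τ / 2), N^(1 / 8))`.
-/

set_option autoImplicit false

open Finset

namespace Pool.Agent.Results.MP_7ecdd4_nt.AliquotSums

open Pool.Agent.N733.TG (Expanding expanding_pow)
open DivisorsInWindows (Admissible rad height Good κ_nonneg hcount)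
open Run7.h527.TP (Bil Two win_nat density combine aliquot cototient deriv sig comb)

/-- **The strong `n`-conjecture near the values of functions which are bilinear in two large primes.** Let `g` be of the
class `Bil`, let `G` have steps `≥ a > 0` and growth at most `v^d`, and let `n ≥ 4`. `Good n A M t`: all tuples `x` of nonzero
pairwise coprime integers with sum zero, `t ∣ x_1 ⋯ x_n` and `max |x_j| ≤ t ^ A` satisfy `max |x_j| ≤ rad (x_1 ⋯ x_n) ^ M`.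
(1) Let `0 ≤ θ < τ ≤ 1` and `A > 0`. There is `M > 0`, depending only on `n`, `d`, `θ`, `τ`, `A`, such that for all `m ≤ N` with
`Two τ m` but at most `N^(1 - δ)`, EVERY integer `t` with `|t - G (g m)| ≤ g(m)^θ` is `Good n A M`. (2) The same for a given
`M ≥ 10 / (3 n - 2)` with `d A (3 n - 5) / ((3 n - 2) M) + θ < τ`. (3) For every `ε > 0` there are `M` and `θ > 0`, depending
only on `n`, `d`, `A`, `ε`, such that this holds for ALL `m ≤ N` but `ε N`. The sum of the proper divisors, the cototient, the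
arithmetic derivative and their positive combinations with the identity are examples of such functions `g`, and `α v^d` with
`α > 0`, `d ≥ 1` is an example of `G`. -/
theorem result (n : ℕ) (hn : 4 ≤ n) :
    (∀ d θ A τ : ℝ, 1 ≤ d → 0 ≤ θ → θ < τ → τ ≤ 1 → 0 < A → ∃ M : ℝ, 0 < M ∧
      ∀ G : ℕ → ℝ, Expanding G d → ∀ g : ℕ → ℕ, Bil g → ∃ δ : ℝ, 0 < δ ∧ ∃ N₀ : ℕ, ∀ N : ℕ, N₀ ≤ N →
        ({m : ℕ | 1 ≤ m ∧ m ≤ N ∧ Two τ m ∧
          ¬ ∀ t : ℕ, |(t : ℝ) - G (g m)| ≤ (g m : ℝ) ^ θ → Good n A M t}.ncard : ℝ) ≤ (N : ℝ) ^ (1 - δ)) ∧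
    (∀ d θ A M τ : ℝ, 0 ≤ θ → 0 < A → 10 / (3 * (n : ℝ) - 2) ≤ M →
      d * (A * ((3 * (n : ℝ) - 5) / (3 * (n : ℝ) - 2) / M)) + θ < τ → τ ≤ 1 →
      ∀ G : ℕ → ℝ, Expanding G d → ∀ g : ℕ → ℕ, Bil g → ∃ δ : ℝ, 0 < δ ∧ ∃ N₀ : ℕ, ∀ N : ℕ, N₀ ≤ N →
        ({m : ℕ | 1 ≤ m ∧ m ≤ N ∧ Two τ m ∧
          ¬ ∀ t : ℕ, |(t : ℝ) - G (g m)| ≤ (g m : ℝ) ^ θ → Good n A M t}.ncard : ℝ) ≤ (N : ℝ) ^ (1 - δ)) ∧
    (∀ d A ε : ℝ, 1 ≤ d → 0 < A → 0 < ε → ∃ M θ : ℝ, 0 < M ∧ 0 < θ ∧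
      ∀ G : ℕ → ℝ, Expanding G d → ∀ g : ℕ → ℕ, Bil g → ∃ N₀ : ℕ, ∀ N : ℕ, N₀ ≤ N →
        ({m : ℕ | 1 ≤ m ∧ m ≤ N ∧ ¬ ∀ t : ℕ, |(t : ℝ) - G (g m)| ≤ (g m : ℝ) ^ θ → Good n A M t}.ncard : ℝ) ≤ ε * N) ∧
    (Bil aliquot ∧ Bil cototient ∧ Bil deriv ∧
      (∀ α β : ℤ, (∀ m : ℕ, 2 ≤ m → 0 < α * m + β * sig m) → Bil (comb α β sig)) ∧
      (∀ α β : ℤ, (∀ m : ℕ, 2 ≤ m → 0 < α * m + β * Nat.totient m) → Bil (comb α β Nat.totient)) ∧
      ∀ α β : ℤ, (∀ m : ℕ, 2 ≤ m → 0 < α * m + β * deriv m) → Bil (comb α β deriv)) ∧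
    ∀ α d : ℝ, 0 < α → 1 ≤ d → Expanding (fun v => α * (v : ℝ) ^ d) d := by
  classical
  have h4 : (4 : ℝ) ≤ n := by exact_mod_cast hn
  have h10 : 0 < 10 / (3 * (n : ℝ) - 2) := div_pos (by norm_num) (by linarith)
  have two : ∀ d θ A M τ : ℝ, 0 ≤ θ → 0 < A → 10 / (3 * (n : ℝ) - 2) ≤ M →
      d * (A * ((3 * (n : ℝ) - 5) / (3 * (n : ℝ) - 2) / M)) + θ < τ → τ ≤ 1 →
      ∀ G : ℕ → ℝ, Expanding G d → ∀ g : ℕ → ℕ, Bil g → ∃ δ : ℝ, 0 < δ ∧ ∃ N₀ : ℕ, ∀ N : ℕ, N₀ ≤ N →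
        ({m : ℕ | 1 ≤ m ∧ m ≤ N ∧ Two τ m ∧
          ¬ ∀ t : ℕ, |(t : ℝ) - G (g m)| ≤ (g m : ℝ) ^ θ → Good n A M t}.ncard : ℝ) ≤ (N : ℝ) ^ (1 - δ) := by
    intro d θ A M τ hθ hA hM h1 hτ G hG g hg
    have hM0 : 0 < M := h10.trans_le hM
    obtain ⟨δ, hδ, N₀, hN₀⟩ := win_nat
      (Pool.Agent.R559.NP.DivBad (n := n) (fun x : Fin n → ℤ => Admissible x ∧ ¬ height x ≤ (rad x : ℝ) ^ M) A) hg hG
      (s := A * ((3 * (n : ℝ) - 5) / (3 * (n : ℝ) - 2) / M)) (κ := θ)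
      (mul_nonneg hA.le (div_nonneg (κ_nonneg hn) hM0.le)) hθ h1 hτ
      (Pool.Agent.R559.NP.count_div (fun x hx => hx.1.1) hA (fun δ hδ => hcount hn hM δ hδ))
    refine ⟨δ, hδ, N₀, fun N hN => le_trans ?_ (hN₀ N hN)⟩
    have hsub : {m : ℕ | 1 ≤ m ∧ m ≤ N ∧ Two τ m ∧
        ¬ ∀ t : ℕ, |(t : ℝ) - G (g m)| ≤ (g m : ℝ) ^ θ → Good n A M t} ⊆
        {m : ℕ | 1 ≤ m ∧ m ≤ N ∧ Two τ m ∧ ∃ t : ℕ, (t = 0 ∨ t ∈ Pool.Agent.R559.NP.DivBad (n := n)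
          (fun x : Fin n → ℤ => Admissible x ∧ ¬ height x ≤ (rad x : ℝ) ^ M) A) ∧
          |(t : ℝ) - G (g m)| ≤ (g m : ℝ) ^ θ} := by
      rintro m ⟨e1, e2, e2', e3⟩
      unfold Good at e3
      push Not at e3
      obtain ⟨t, ht, x, hx, hd, hh, hr⟩ := e3
      exact ⟨e1, e2, e2', t, Or.inr ⟨x, ⟨hx, not_le.2 hr⟩, hh, hd⟩, ht⟩
    exact_mod_cast Set.ncard_le_ncard hsub ((Set.finite_Icc 1 N).subset fun m hm => ⟨hm.1, hm.2.1⟩)
  have one : ∀ d θ A τ : ℝ, 1 ≤ d → 0 ≤ θ → θ < τ → τ ≤ 1 → 0 < A → ∃ M : ℝ, 0 < M ∧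
      ∀ G : ℕ → ℝ, Expanding G d → ∀ g : ℕ → ℕ, Bil g → ∃ δ : ℝ, 0 < δ ∧ ∃ N₀ : ℕ, ∀ N : ℕ, N₀ ≤ N →
        ({m : ℕ | 1 ≤ m ∧ m ≤ N ∧ Two τ m ∧
          ¬ ∀ t : ℕ, |(t : ℝ) - G (g m)| ≤ (g m : ℝ) ^ θ → Good n A M t}.ncard : ℝ) ≤ (N : ℝ) ^ (1 - δ) := by
    intro d θ A τ hd hθ hθ1 hτ hA
    have hθ0 : 0 < τ - θ := by linarith
    have h2 : 0 < 2 * d * A / (τ - θ) := by positivity
    obtain ⟨M, hMd⟩ : ∃ M : ℝ, M = 2 * d * A / (τ - θ) + 10 / (3 * (n : ℝ) - 2) := ⟨_, rfl⟩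
    have hM0 : 0 < M := by linarith
    refine ⟨M, hM0, two d θ A M τ hθ hA (by linarith) ?_ hτ⟩
    have h3 : (3 * (n : ℝ) - 5) / (3 * (n : ℝ) - 2) ≤ 1 := by
      rw [div_le_one (by linarith)]
      linarith
    have h5 : (3 * (n : ℝ) - 5) / (3 * (n : ℝ) - 2) / M ≤ 1 / M := div_le_div_of_nonneg_right h3 hM0.le
    have h6 : d * (A * (1 / M)) < τ - θ := by
      have h7 : 2 * d * A / (τ - θ) ≤ M := by linarith
      rw [div_le_iff₀ hθ0] at h7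
      have h8 : d * (A * (1 / M)) = d * A / M := by ring
      rw [h8, div_lt_iff₀ hM0]
      have h9 : 0 < d * A := by positivity
      nlinarith
    have h7 : d * (A * ((3 * (n : ℝ) - 5) / (3 * (n : ℝ) - 2) / M)) ≤ d * (A * (1 / M)) :=
      mul_le_mul_of_nonneg_left (mul_le_mul_of_nonneg_left h5 hA.le) (by linarith)
    linarith
  refine ⟨one, two, fun d A ε hd hA hε => ?_, Run7.h527.TP.examples, fun α d hα hd => expanding_pow hα hd⟩
  obtain ⟨τ, hτ0, hτ1, hden⟩ := density (ε / 2) (by positivity)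
  obtain ⟨M, hM, h⟩ := one d (τ / 2) A τ hd (by linarith) (by linarith) hτ1 hA
  exact ⟨M, τ / 2, hM, by linarith, fun G hG g hg => combine hε hden _ (h G hG g hg)⟩

end Pool.Agent.Results.MP_7ecdd4_nt.AliquotSums
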