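import Pool.Agent.Run7.h95.LF.Full
import Pool.Agent.Results.MP_7ecdd4_nt.DivisorsInWindows

/-!
# The strong `n`-conjecture near the values of generic linear forms

Let `v_i`, `i` in a countable set, be vectors in `ℝ^k` such that for every `ε > 0` at most `C X ^ (τ + ε)` of them have norm at
most `X`; for instance all `(b_1^(n_1), …, b_k^(n_k))` with `b_j > 1` (`τ = 0`), all `(1, n, …, n^d)` (`τ = 1 / d`), or all
`(n_1^(a_1), …, n_k^(a_k))` (`τ` the sum of the `1 / a_j`).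
Let `0 ≤ θ < 1`. For all `α` in `ℝ^k` outside a set of Hausdorff dimension at most `k - 1 + τ / (1 - θ)` (less than `k`, hence
for almost all `α`, if `θ < 1 - τ`; for `τ = 0` for all `θ < 1`), for all `w`, `n ≥ 4` and `A` there is `M` such that EVERY tuple
`x` of `n` nonzero pairwise coprime integers with sum zero, for which `x_1 ⋯ x_n` has a divisor `r` in one of the windows
`|r - (α_1 v_(i,1) + … + α_k v_(i,k))| ≤ w |v_i|^θ` with `max |x_j| ≤ r ^ A`, satisfies `max |x_j| ≤ rad (x_1 ⋯ x_n) ^ M`. In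
particular this holds for all the tuples of a height in one of the windows. For a given `M` it holds in all but finitely many
windows for all `α` outside a set of dimension at most `k - 1 + (A s + τ) / (1 - θ)`, `s = (3 n - 5) / ((3 n - 2) M)`. (The
starting files treat windows with one parameter `α`, and windows around functions of the denominators of good approximations.)

Proof. The `r ≤ X` which divide the product of an exceptional tuple of height at most `r ^ A` are at most `C X^(A s + ε)` in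
number, by the starting theorem `FewExceptions` of this problem; the `α` with such an `r` in the window of `v_i` form slabs,
which are covered by few small cubes (`Pool.Agent.N251.LF`).
-/

set_option autoImplicit false

namespace Pool.Agent.Results.MP_7ecdd4_nt.GenericLinearForms

open Finset
open Pool.Agent.N251.LF (Fam Sq examples)
open Run7.h95.LF (full_nat null_lin quot_lt_one)
open Pool.Agent.Results.MP_7ecdd4_nt.DivisorsInWindows (Admissible rad height Good hcount κ_nonneg)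

/-- one exponent `M` -/
theorem fixed {n : ℕ} (hn : 4 ≤ n) {A M : ℝ} (hA : 0 < A) (hM : 10 / (3 * (n : ℝ) - 2) ≤ M) {k : ℕ} {ι : Type}
    (v : ι → Fin k → ℝ) {τ θ : ℝ} (hτ : 0 ≤ τ) (hθ : θ < 1) (hv : Fam v τ) :
    ∃ E : Set (Fin k → ℝ),
      dimH E ≤ ENNReal.ofReal ((k : ℝ) - 1 + (A * ((3 * (n : ℝ) - 5) / (3 * (n : ℝ) - 2) / M) + τ) / (1 - θ)) ∧
      ∀ α, α ∉ E → ∀ w : ℝ,
        {i | ¬ ∀ r : ℕ, |(r : ℝ) - ∑ l, α l * v i l| ≤ w * ‖v i‖ ^ θ → Good n A M r}.Finite := by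
  have h4 : (4 : ℝ) ≤ n := by exact_mod_cast hn
  have hs0 : 0 ≤ (3 * (n : ℝ) - 5) / (3 * (n : ℝ) - 2) / M :=
    div_nonneg (κ_nonneg hn) (le_trans (div_nonneg (by norm_num) (by linarith)) hM)
  have hcd := Pool.Agent.R559.NP.count_div (n := n)
    (Bad := fun x : Fin n → ℤ => Admissible x ∧ ¬ height x ≤ (rad x : ℝ) ^ M)
    (fun x hx => hx.1.1) hA (fun δ hδ => hcount hn hM δ hδ)
  obtain ⟨E, hE, -, hE2⟩ := full_nat (Pool.Agent.R559.NP.DivBad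
    (fun x : Fin n → ℤ => Admissible x ∧ ¬ height x ≤ (rad x : ℝ) ^ M) A) v
    (mul_nonneg hA.le hs0) hτ hθ hv (fun ε hε => by
      obtain ⟨C, hC⟩ := hcd ε hε
      refine ⟨C, fun X hX => le_trans (le_of_eq ?_) (hC X hX)⟩
      congr!)
  refine ⟨E, hE, fun α hα w => (hE2 α hα w).subset ?_⟩
  intro i hi
  simp only [Set.mem_ofPred_eq] at hi ⊢
  by_contra hno
  apply hi
  intro r hr x hx hd hh
  by_contra hcon
  exact hno ⟨r, Or.inr ⟨x, ⟨hx, hcon⟩, hh, hd⟩, hr⟩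

/-- a tuple with a height near `y` has a divisor near `y` -/
theorem good_height {n : ℕ} (hn : 0 < n) {A M : ℝ} (hA : 1 ≤ A) {y w : ℝ}
    (h : ∀ r : ℕ, |(r : ℝ) - y| ≤ w → Good n A M r) (x : Fin n → ℤ) (hx : Admissible x)
    (hy : |height x - y| ≤ w) : height x ≤ (rad x : ℝ) ^ M := by
  have : Nonempty (Fin n) := ⟨⟨0, hn⟩⟩
  obtain ⟨i, hi⟩ := exists_eq_ciSup_of_finite (f := fun i : Fin n => ((|x i| : ℤ) : ℝ))
  have hi' : height x = (((x i).natAbs : ℕ) : ℝ) := by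
    rw [Nat.cast_natAbs]
    exact hi.symm
  have h1 : 1 ≤ (x i).natAbs := Int.natAbs_pos.2 (hx.1 i)
  have h1' : (1 : ℝ) ≤ (((x i).natAbs : ℕ) : ℝ) := by exact_mod_cast h1
  refine h (x i).natAbs (by rw [← hi']; exact hy) x hx ?_ ?_
  · exact (Int.natAbs_dvd.2 dvd_rfl).trans (Finset.dvd_prod_of_mem _ (Finset.mem_univ i))
  · rw [hi']
    calc (((x i).natAbs : ℕ) : ℝ) = (((x i).natAbs : ℕ) : ℝ) ^ (1 : ℝ) := (Real.rpow_one _).symm
      _ ≤ _ := Real.rpow_le_rpow_of_exponent_le h1' hA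

theorem good_anti {n : ℕ} {A A' M : ℝ} (hA : A ≤ A') {r : ℕ} (h : Good n A' M r) : Good n A M r := by
  intro x hx hd hh
  rcases Nat.eq_zero_or_pos r with h0 | h0
  · exfalso
    rw [h0] at hd
    have : ∏ i, x i = 0 := by simpa using hd
    exact (Finset.prod_ne_zero_iff.2 fun i _ => hx.1 i) this
  · exact h x hx hd (hh.trans (Real.rpow_le_rpow_of_exponent_le (by exact_mod_cast h0) hA))

theorem good_mono {n : ℕ} {A M M' : ℝ} (hM : M ≤ M') {r : ℕ} (h : Good n A M r) : Good n A M' r :=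
  fun x hx hd hh => Pool.Agent.R559.NP.good_mono (h x hx hd hh) hM

/-- some exponent `M`, for all `n` and all the windows -/
theorem some_exponent {k : ℕ} {ι : Type} (v : ι → Fin k → ℝ) {τ θ : ℝ} (hτ : 0 ≤ τ) (hθ : θ < 1) (hv : Fam v τ) :
    ∃ E : Set (Fin k → ℝ), dimH E ≤ ENNReal.ofReal ((k : ℝ) - 1 + τ / (1 - θ)) ∧
      ∀ α, α ∉ E → ∀ (w : ℝ) (n : ℕ), 4 ≤ n → ∀ A : ℝ, ∃ M : ℝ, ∀ i : ι, ∀ r : ℕ,
        |(r : ℝ) - ∑ l, α l * v i l| ≤ w * ‖v i‖ ^ θ → Good n A M r := by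
  have hfix : ∀ a : ℕ × ℕ × ℕ, ∃ E : Set (Fin k → ℝ),
      dimH E ≤ ENNReal.ofReal ((k : ℝ) - 1 + (((a.2.1 + 1 : ℕ) : ℝ) * ((3 * ((a.1 + 4 : ℕ) : ℝ) - 5) /
        (3 * ((a.1 + 4 : ℕ) : ℝ) - 2) / ((a.2.2 + 1 : ℕ) : ℝ)) + τ) / (1 - θ)) ∧
      ∀ α, α ∉ E → ∀ w : ℝ, {i | ¬ ∀ r : ℕ, |(r : ℝ) - ∑ l, α l * v i l| ≤ w * ‖v i‖ ^ θ →
        Good (a.1 + 4) ((a.2.1 + 1 : ℕ) : ℝ) ((a.2.2 + 1 : ℕ) : ℝ) r}.Finite := by
    intro a
    refine fixed (by omega) (by positivity) ?_ v hτ hθ hv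
    have h1 : (1 : ℝ) ≤ ((a.2.2 + 1 : ℕ) : ℝ) := by
      push_cast
      have : (0 : ℝ) ≤ (a.2.2 : ℝ) := Nat.cast_nonneg _
      linarith
    refine le_trans ?_ h1
    have h2 : (0 : ℝ) ≤ (a.1 : ℝ) := Nat.cast_nonneg _
    rw [div_le_one (by push_cast; linarith)]
    push_cast
    linarith
  choose E hE hE2 using hfix
  refine ⟨⋃ a : ℕ × ℕ, ⋂ b : ℕ, E (a.1, a.2, b), ?_, ?_⟩
  · rw [dimH_iUnion]
    refine iSup_le fun a => ?_
    have hle : ∀ b : ℕ, dimH (⋂ b : ℕ, E (a.1, a.2, b)) ≤ ENNReal.ofReal ((k : ℝ) - 1 + (((a.2 + 1 : ℕ) : ℝ) *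
        ((3 * ((a.1 + 4 : ℕ) : ℝ) - 5) / (3 * ((a.1 + 4 : ℕ) : ℝ) - 2) / ((b + 1 : ℕ) : ℝ)) + τ) / (1 - θ)) :=
      fun b => (dimH_mono (Set.iInter_subset _ b)).trans (hE (a.1, a.2, b))
    have hlim : Filter.Tendsto (fun b : ℕ => ENNReal.ofReal ((k : ℝ) - 1 + (((a.2 + 1 : ℕ) : ℝ) *
        ((3 * ((a.1 + 4 : ℕ) : ℝ) - 5) / (3 * ((a.1 + 4 : ℕ) : ℝ) - 2) / ((b + 1 : ℕ) : ℝ)) + τ) / (1 - θ)))
        Filter.atTop (nhds (ENNReal.ofReal ((k : ℝ) - 1 + (((a.2 + 1 : ℕ) : ℝ) * 0 + τ) / (1 - θ)))) := by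
      refine ENNReal.tendsto_ofReal (Filter.Tendsto.const_add _ (Filter.Tendsto.div_const
        (Filter.Tendsto.add_const _ (Filter.Tendsto.const_mul _ ?_)) _))
      exact (Filter.tendsto_add_atTop_iff_nat 1).2
        (tendsto_const_div_atTop_nhds_zero_nat ((3 * ((a.1 + 4 : ℕ) : ℝ) - 5) / (3 * ((a.1 + 4 : ℕ) : ℝ) - 2)))
    have := ge_of_tendsto' hlim hle
    rwa [mul_zero, zero_add] at this
  · intro α hα w n hn A
    obtain ⟨n', rfl⟩ : ∃ n', n = n' + 4 := ⟨n - 4, by omega⟩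
    obtain ⟨A', hA'⟩ : ∃ A' : ℕ, A ≤ ((A' + 1 : ℕ) : ℝ) := by
      obtain ⟨m, hm⟩ := exists_nat_ge A
      exact ⟨m, hm.trans (by push_cast; linarith)⟩
    rw [Set.mem_iUnion] at hα
    push Not at hα
    have h1 := hα (n', A')
    rw [Set.mem_iInter] at h1
    push Not at h1
    obtain ⟨b, hb⟩ := h1
    have hfin := hE2 (n', A', b) α hb w
    -- the finitely many exceptional windows
    obtain ⟨B, hB⟩ : ∃ B : ℕ, ∀ i ∈ hfin.toFinset, ⌈∑ l, α l * v i l + w * ‖v i‖ ^ θ⌉₊ ≤ B :=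
      ⟨hfin.toFinset.sup fun i => ⌈∑ l, α l * v i l + w * ‖v i‖ ^ θ⌉₊, fun i hi =>
        Finset.le_sup (f := fun i : ι => ⌈∑ l, α l * v i l + w * ‖v i‖ ^ θ⌉₊) hi⟩
    obtain ⟨M', hM'⟩ := Pool.Agent.R559.NP.good_small (n := n' + 4) (by omega) A B
    refine ⟨max M' ((b + 1 : ℕ) : ℝ), fun i r hr => ?_⟩
    by_cases hi : i ∈ hfin.toFinset
    · refine good_mono (le_max_left _ _) fun x hx hd hh => ?_
      refine hM' r ?_ x hx.1 hd hh
      have h2 := (abs_le.1 hr).2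
      have h3 : (r : ℝ) ≤ ∑ l, α l * v i l + w * ‖v i‖ ^ θ := by linarith
      have h5 : r ≤ ⌈∑ l, α l * v i l + w * ‖v i‖ ^ θ⌉₊ := by exact_mod_cast h3.trans (Nat.le_ceil _)
      exact h5.trans (hB i hi)
    · rw [Set.Finite.mem_toFinset, Set.mem_ofPred_eq, not_not] at hi
      exact good_mono (le_max_right _ _) (good_anti hA' (hi r hr))

/-- **Theorem.** Let the family `v` of vectors in `ℝ^k` have at most `C X ^ (τ + η)` members of norm at most `X`, for every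
`η > 0`, and let `0 ≤ θ < 1`. (1) There is a set `E` of Hausdorff dimension at most `k - 1 + τ / (1 - θ)` (less than `k`, and
of measure zero, if `θ < 1 - τ`) such that for each `α` in `ℝ^k` outside `E`, all `w`, all `n ≥ 4` and all `A` there is `M`
such that for all `i` EVERY tuple `x` of `n` nonzero pairwise coprime integers with sum zero satisfies
`max |x_j| ≤ rad (x_1 ⋯ x_n) ^ M` if `x_1 ⋯ x_n` has a divisor `r` with `|r - ∑ α_l v_(i,l)| ≤ w ‖v_i‖ ^ θ`,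
`max |x_j| ≤ r ^ A`, or if `|max |x_j| - ∑ α_l v_(i,l)| ≤ w ‖v_i‖ ^ θ`. (2) For all `n ≥ 4`, `A > 0`, `M ≥ 10 / (3 n - 2)`, for
all `α` outside a set of dimension at most `k - 1 + (A s + τ) / (1 - θ)`, `s = (3 n - 5) / ((3 n - 2) M)` (of measure zero if
`θ < 1 - A s - τ`), and all `w`, for all but finitely many `i` EVERY such tuple satisfies `max |x_j| ≤ rad (x_1 ⋯ x_n) ^ M` if
`x_1 ⋯ x_n` has such a divisor, or if `A ≥ 1` and `|max |x_j| - ∑ α_l v_(i,l)| ≤ w ‖v_i‖ ^ θ`. (3) Examples of families. -/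
theorem result :
    (∀ (k : ℕ) (ι : Type) (v : ι → Fin k → ℝ) (τ θ : ℝ), 0 ≤ τ → 0 ≤ θ → θ < 1 → Fam v τ →
      ∃ E : Set (Fin k → ℝ), dimH E ≤ ENNReal.ofReal ((k : ℝ) - 1 + τ / (1 - θ)) ∧
        (1 ≤ k → θ < 1 - τ → dimH E < (k : ENNReal) ∧ MeasureTheory.volume E = 0) ∧
        ∀ α, α ∉ E → ∀ (w : ℝ) (n : ℕ), 4 ≤ n → ∀ A : ℝ, ∃ M : ℝ, ∀ i : ι,
          (∀ r : ℕ, |(r : ℝ) - ∑ l, α l * v i l| ≤ w * ‖v i‖ ^ θ → Good n A M r) ∧
          ∀ x : Fin n → ℤ, Admissible x → |height x - ∑ l, α l * v i l| ≤ w * ‖v i‖ ^ θ →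
            height x ≤ (rad x : ℝ) ^ M) ∧
    (∀ n : ℕ, 4 ≤ n → ∀ A M : ℝ, 0 < A → 10 / (3 * (n : ℝ) - 2) ≤ M →
      ∀ (k : ℕ) (ι : Type) (v : ι → Fin k → ℝ) (τ θ : ℝ), 0 ≤ τ → 0 ≤ θ → θ < 1 → Fam v τ →
      ∃ E : Set (Fin k → ℝ),
        dimH E ≤ ENNReal.ofReal ((k : ℝ) - 1 + (A * ((3 * (n : ℝ) - 5) / (3 * (n : ℝ) - 2) / M) + τ) / (1 - θ)) ∧
        (1 ≤ k → θ < 1 - A * ((3 * (n : ℝ) - 5) / (3 * (n : ℝ) - 2) / M) - τ →
          dimH E < (k : ENNReal) ∧ MeasureTheory.volume E = 0) ∧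
        ∀ α, α ∉ E → ∀ w : ℝ, {i | ¬ ((∀ r : ℕ, |(r : ℝ) - ∑ l, α l * v i l| ≤ w * ‖v i‖ ^ θ → Good n A M r) ∧
          (1 ≤ A → ∀ x : Fin n → ℤ, Admissible x → |height x - ∑ l, α l * v i l| ≤ w * ‖v i‖ ^ θ →
            height x ≤ (rad x : ℝ) ^ M))}.Finite) ∧
    (∀ d : ℕ, 1 ≤ d → Fam (fun (n : ℕ) (j : Fin (d + 1)) => (n : ℝ) ^ (j : ℕ)) (1 / d)) ∧
    (∀ (k : ℕ) (b : Fin k → ℝ), (∀ j, 1 < b j) → Fam (fun (n : Fin k → ℕ) (j : Fin k) => b j ^ n j) 0) ∧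
    (∀ (k : ℕ) (a : Fin k → ℝ), (∀ j, 0 < a j) →
      Fam (fun (n : Fin k → ℕ) (j : Fin k) => (n j : ℝ) ^ a j) (∑ j, 1 / a j)) ∧
    ∀ (k : ℕ) (u : Fin k → ℕ → ℝ) (τ : Fin k → ℝ), (∀ j, Sq (u j) (τ j)) →
      Fam (fun (n : Fin k → ℕ) (j : Fin k) => u j (n j)) (∑ j, τ j) := by
  refine ⟨fun k ι v τ θ hτ hθ0 hθ1 hv => ?_, fun n hn A M hA hM k ι v τ θ hτ hθ0 hθ1 hv => ?_, examples⟩
  · obtain ⟨E, hE, hE2⟩ := some_exponent v hτ hθ1 hv
    refine ⟨E, hE, fun hk hlt => null_lin hE hk ?_, fun α hα w n hn A => ?_⟩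
    · rw [div_lt_one (by linarith)]
      linarith
    · obtain ⟨M, hM⟩ := hE2 α hα w n hn (max A 1)
      exact ⟨M, fun i => ⟨fun r hr => good_anti (le_max_left _ _) (hM i r hr),
        fun x hx hy => good_height (by omega) (le_max_right _ _) (hM i) x hx hy⟩⟩
  · obtain ⟨E, hE, hE2⟩ := fixed hn hA hM v hτ hθ1 hv
    refine ⟨E, hE, fun hk hlt => null_lin hE hk (quot_lt_one hθ1 hlt), fun α hα w => (hE2 α hα w).subset ?_⟩
    intro i hi
    simp only [Set.mem_ofPred_eq] at hi ⊢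
    intro hall
    exact hi ⟨hall, fun hA1 x hx hy => good_height (by omega) hA1 hall x hx hy⟩

end Pool.Agent.Results.MP_7ecdd4_nt.GenericLinearForms
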