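import Mathlib
import Pool.Agent.Run7.h720.NMain

set_option autoImplicit false

/-!
# The strong n-conjecture for sparse integers with exponent n - 2

Let `n ≥ 3`, let `K` be a number field and `Γ` a finitely generated subgroup of its multiplicative
group. We consider the `n`-tuples `x` of nonzero pairwise coprime integers with sum zero such that
the `x_i` are short: sums of `r` terms `c * γ` with `γ` in `Γ` and `c` in `K` of height at most
`B * H ^ δ`, where `H = max |x_i|`. Proper subsums may vanish. For every short integer `ρ` and every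
integer `τ` such that the product of the `x_i` divides `ρ ^ m * τ` we prove

  `max |x_i| ≤ C * (|ρ| * |τ|) ^ (n - 2 + ε)`

if `δ` is small enough. Here `ρ` takes the place of the radical (the case of a short multiple `ρ` of
the radical is `τ = 1`), and `τ` is an arbitrary cofactor.

For the proof, the tuple is represented by polynomials in independent germs of units over the field of
negligible germs, and one considers the Wronskian of a minimal linear relation which contains the
largest entry.
-/

namespace Pool.Agent.Results.MP_7ecdd4_nt.SparseTuplesAnyCofactor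

/-- The integer `z` is a sum of `r` terms `c * γ`, where `γ` is in `Γ` and `c` is an element of `K` of
(multiplicative) height at most `R`. -/
def IsShort {K : Type} [Field K] [NumberField K] (Γ : Subgroup Kˣ) (r : ℕ) (R : ℝ) (z : ℤ) : Prop :=
  ∃ (c : Fin r → K) (γ : Fin r → Kˣ), (∀ j, γ j ∈ Γ) ∧ (∀ j, Height.mulHeight₁ (c j) ≤ R) ∧
    (z : K) = ∑ j, c j * (γ j : K)

/-- The admissible tuples of the problem. -/
def Admissible {n : ℕ} (x : Fin n → ℤ) : Prop :=
  (∀ i, x i ≠ 0) ∧ (∀ i j, i ≠ j → IsCoprime (x i) (x j)) ∧ ∑ i, x i = 0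

/-- The maximum of the absolute values of the entries. -/
noncomputable def size {n : ℕ} (x : Fin n → ℤ) : ℝ := ⨆ i, |(x i : ℝ)|

/-- **Main theorem.** Let `n ≥ 3`. For every number field `K`, every finitely generated subgroup `Γ`
of its multiplicative group, all natural numbers `r`, `m`, every real `B` and every `ε > 0` there are
`δ > 0` and `C` with the following property. Let `x` be an `n`-tuple of nonzero pairwise coprime
integers with sum zero and let `ρ`, `τ` be nonzero integers such that the product of the `x i`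
divides `ρ ^ m * τ`. If the `x i` and `ρ` are sums of `r` terms `c * γ` with `γ` in `Γ` and `c` in `K`
of height at most `B * (max |x i|) ^ δ`, then `max |x i| ≤ C * |ρ * τ| ^ (n - 2 + ε)`. -/
theorem result (n : ℕ) (hn : 3 ≤ n) (K : Type) [Field K] [NumberField K] (Γ : Subgroup Kˣ)
    (hΓ : Γ.FG) (r m : ℕ) (B ε : ℝ) (hε : 0 < ε) :
    ∃ δ C : ℝ, 0 < δ ∧ ∀ (x : Fin n → ℤ) (ρ τ : ℤ), Admissible x → ρ ≠ 0 → τ ≠ 0 →
      ∏ i, x i ∣ ρ ^ m * τ → (∀ i, IsShort Γ r (B * size x ^ δ) (x i)) →
      IsShort Γ r (B * size x ^ δ) ρ →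
      size x ≤ C * |((ρ * τ : ℤ) : ℝ)| ^ ((n : ℝ) - 2 + ε) := by
  obtain ⟨δ, C, hδ, h⟩ := Pool.Agent.Run7.h720.strong_int K Γ hΓ n r m hn B ε hε
  refine ⟨δ, C, hδ, fun x ρ τ hx hρ hτ hd hs1 hs2 => ?_⟩
  have : Nonempty (Fin n) := ⟨⟨0, by omega⟩⟩
  obtain ⟨j, hj⟩ := Finite.exists_max fun i => |(x i : ℝ)|
  have hb : BddAbove (Set.range fun i => |(x i : ℝ)|) := Set.finite_range _ |>.bddAbove
  have h1 := h x ρ τ (size x) (fun i => le_ciSup hb i)
    ⟨j, le_antisymm (le_ciSup hb j) (ciSup_le hj)⟩ hx hρ hτ hd hs1 hs2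
  rw [Nat.cast_sub (by omega), ← abs_mul] at h1
  push_cast
  push_cast at h1
  exact h1

end Pool.Agent.Results.MP_7ecdd4_nt.SparseTuplesAnyCofactor
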