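import Pool.Agent.Run7.h430.TW.Tup
import Pool.Agent.Results.MP_7ecdd4_nt.DivisorsInWindows

/-!
# The strong `n`-conjecture for the tuples with a divisor of the product near almost all orbits of Euler's function

Let `φ_k` be the `k`-th iterate of Euler's function, `φ_0(m) = m`. Let `f`, `g` be positive multiplicative functions of at most
polynomial growth such that `f p ≤ M p` for the large primes `p`, with different values at different large primes; for example
the identity, Euler's function or the sum of the divisors. Let `F`, `G` be functions with steps bounded below by a positive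
constant and growth at most `v^d`, `v^d'` (for example `α v^d`). Let `n ≥ 4`, `A > 0`, `M ≥ 10 / (3 n - 2)`, `κ ≥ 0` and
`σ = (3 n - 5) / (3 n - 2)`.

(1) One orbit. If `σ A d / M + κ < 1`, there is `K(m)` tending to infinity such that for almost all `m`, for ALL
`k, a ≤ K(m)`, `a ≥ 1`, and EVERY integer `t` with `|t - a F(v)| ≤ K(m) v^κ`, `v = f(φ_k(m))`: EVERY tuple `x` of `n` non-zero
pairwise coprime integers with sum zero, for which `x_1 ⋯ x_n` is divisible by `t` and `max |x_j| ≤ t^A`, satisfies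
`max |x_j| ≤ rad(x_1 ⋯ x_n)^M`. So for all `d`, `κ < 1` and `A` this holds with some exponent `M`.

(2) Pairs of orbits. Let `σ A < M`, `L ≥ 1`, `c = (1 - σ A / M) / (8 (L + 1)^3)`, and `d (1 - c) + κ < 1`, `d' (1 - c) + κ < 1`. There
is `K(m)` tending to infinity such that for 100% of the pairs `(m, m')` (in every box `[1, N] × [1, N']` with large sides), with
`K = K(min (m, m'))`, for ALL `k, l, a, b ≤ K`, `a, b ≥ 1`, and ALL `t, u` with `|t - a F(v)| ≤ K v^κ`, `|u - b G(w)| ≤ K w^κ`,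
`v = f(φ_k(m))`, `w = g(φ_l(m'))`, `t ≤ u^L`, `u ≤ t^L`: EVERY such tuple `x` with `t u ∣ x_1 ⋯ x_n` and `max |x_j| ≤ (t u)^A`
satisfies `max |x_j| ≤ rad(x_1 ⋯ x_n)^M`.

The iterates of Euler's function are not multiplicative, and the values `φ_k(m)`, `m ≤ N`, form a thin set and are taken with
very large multiplicities; so this does not follow from the number of the exceptional tuples (`FewExceptions`,
`DivisorsInWindows`, starting files), which is used here. The tool is `Pool.Agent.N760.IT` (starting files), in the form of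
`Run7/h430/TW` (multiples, enlarged windows; pairs of orbits).
-/

set_option autoImplicit false

namespace Pool.Agent.Results.MP_7ecdd4_nt.TotientOrbits

open Finset Filter Topology
open DivisorsInWindows (Admissible rad height Good κ_nonneg hcount)

/-- A positive multiplicative function of at most polynomial growth, at most `M p` at the large primes `p` and with different
values at different large primes. -/
structure Moderate (f : ℕ → ℕ) : Prop where
  mul : ∀ m n : ℕ, Nat.Coprime m n → f (m * n) = f m * f n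
  pos : ∀ m : ℕ, 1 ≤ m → 1 ≤ f m
  growth : ∃ C D : ℕ, ∀ m : ℕ, 1 ≤ m → f m ≤ C * m ^ D
  prime : ∃ P M : ℕ, ∀ p : ℕ, P ≤ p → p.Prime → f p ≤ M * p ∧ ∀ q : ℕ, P ≤ q → q.Prime → f q = f p → q = p

/-- The steps of `G` are at least a positive constant, and `G` grows at most like `v ^ d`, `d ≥ 1`. -/
structure Expanding (G : ℕ → ℝ) (d : ℝ) : Prop where
  one_le : 1 ≤ d
  step : ∃ a : ℝ, 0 < a ∧ ∀ v : ℕ, 1 ≤ v → a ≤ G (v + 1) - G v
  growth : ∃ C : ℝ, ∀ v : ℕ, 1 ≤ v → G v ≤ C * (v : ℝ) ^ d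

open Classical in
/-- The proportion of the positive integers `m ≤ N` without the property `P` tends to `0`. -/
def AlmostAll (P : ℕ → Prop) : Prop :=
  Tendsto (fun N : ℕ => (((Icc 1 N).filter (fun m => ¬ P m)).card : ℝ) / N) atTop (𝓝 0)

open Classical in
/-- `P m m'` holds for 100% of the pairs `(m, m')`, in all boxes `[1, N] × [1, N']` with large sides. -/
def AlmostAllPairs (P : ℕ → ℕ → Prop) : Prop :=
  ∀ δ : ℝ, 0 < δ → ∃ N₀ : ℕ, ∀ N N' : ℕ, N₀ ≤ N → N₀ ≤ N' →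
    ((((Icc 1 N) ×ˢ (Icc 1 N')).filter (fun p => ¬ P p.1 p.2)).card : ℝ) ≤ δ * ((N : ℝ) * N')

/-- the value of `f` at the `k`-th iterate of Euler's function -/
def orb (f : ℕ → ℕ) (k m : ℕ) : ℕ := f (Nat.totient^[k] m)

theorem lm_of {f : ℕ → ℕ} (hf : Moderate f) : Pool.Agent.N733.TG.LM f := ⟨hf.mul, hf.pos, hf.growth, hf.prime⟩

theorem of_lm {f : ℕ → ℕ} (hf : Pool.Agent.N733.TG.LM f) : Moderate f := ⟨hf.mul, hf.pos, hf.growth, hf.prime⟩

theorem ex_of {G : ℕ → ℝ} {d : ℝ} (h : Expanding G d) : Pool.Agent.N733.TG.Expanding G d := ⟨h.one_le, h.step, h.growth⟩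

theorem aap_of {P : ℕ → ℕ → Prop} (h : Run7.h430.TW.Pairs.PairAA P) : AlmostAllPairs P := h

/-- `σ = (3 n - 5) / (3 n - 2)` -/
noncomputable def sig (n : ℕ) : ℝ := (3 * (n : ℝ) - 5) / (3 * (n : ℝ) - 2)

/-- **The strong `n`-conjecture along orbits and pairs of orbits of Euler's function.** `Good n A M t`: all tuples `x` of
non-zero pairwise coprime integers with sum zero, `t ∣ x_1 ⋯ x_n` and `max |x_j| ≤ t ^ A` satisfy
`max |x_j| ≤ rad (x_1 ⋯ x_n) ^ M`. -/
theorem result (n : ℕ) (hn : 4 ≤ n) (A M κ : ℝ) (hA : 0 < A) (hM : 10 / (3 * (n : ℝ) - 2) ≤ M) (hκ : 0 ≤ κ) :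
    (∀ f : ℕ → ℕ, Moderate f → ∀ (F : ℕ → ℝ) (d : ℝ), Expanding F d →
      sig n * A * d / M + κ < 1 → ∃ K : ℕ → ℕ, Tendsto K atTop atTop ∧
        AlmostAll (fun m => ∀ k ≤ K m, ∀ a : ℕ, 1 ≤ a → a ≤ K m → ∀ t : ℕ,
          |(t : ℝ) - a * F (orb f k m)| ≤ K m * (orb f k m : ℝ) ^ κ → Good n A M t)) ∧
    (∀ f g : ℕ → ℕ, Moderate f → Moderate g → ∀ (F G : ℕ → ℝ) (d d' : ℝ), Expanding F d → Expanding G d' →
      ∀ L : ℕ, sig n * A < M → d * (1 - (1 - sig n * A / M) / (8 * ((L : ℝ) + 1) ^ 3)) + κ < 1 →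
      d' * (1 - (1 - sig n * A / M) / (8 * ((L : ℝ) + 1) ^ 3)) + κ < 1 →
      ∃ K : ℕ → ℕ, Tendsto K atTop atTop ∧ AlmostAllPairs (fun m m' => ∀ k ≤ K (min m m'), ∀ l ≤ K (min m m'),
        ∀ a b : ℕ, 1 ≤ a → a ≤ K (min m m') → 1 ≤ b → b ≤ K (min m m') → ∀ t u : ℕ,
          |(t : ℝ) - a * F (orb f k m)| ≤ K (min m m') * (orb f k m : ℝ) ^ κ →
          |(u : ℝ) - b * G (orb g l m')| ≤ K (min m m') * (orb g l m' : ℝ) ^ κ →
          1 ≤ t → 1 ≤ u → t ≤ u ^ L → u ≤ t ^ L → Good n A M (t * u))) ∧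
    (Moderate (fun m => m) ∧ Moderate Nat.totient ∧ Moderate (fun m => ∑ d ∈ m.divisors, d)) ∧
    ∀ a d : ℝ, 0 < a → 1 ≤ d → Expanding (fun v => a * (v : ℝ) ^ d) d := by
  have hσ : 0 ≤ sig n := κ_nonneg hn
  have h4 : (4 : ℝ) ≤ n := by exact_mod_cast hn
  have hM0 : 0 < M := lt_of_lt_of_le (div_pos (by norm_num) (by linarith)) hM
  have hne : ∀ x : Fin n → ℤ, (Admissible x ∧ ¬ height x ≤ (rad x : ℝ) ^ M) → ∀ i, x i ≠ 0 := fun x hx => hx.1.1
  have hgood : ∀ t : ℕ, t ∉ Pool.Agent.R559.NP.DivBad (n := n)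
      (fun x : Fin n → ℤ => Admissible x ∧ ¬ height x ≤ (rad x : ℝ) ^ M) A → Good n A M t := by
    intro t ht x hx hd hh
    by_contra hcon
    exact ht ⟨x, ⟨hx, hcon⟩, hh, hd⟩
  refine ⟨fun f hf F d hF h1 => ?_, fun f g hf hg F G d d' hF hG L hAM h1 h2 => ?_,
    ⟨of_lm Pool.Agent.N760.IT.lm_id, of_lm Pool.Agent.N733.TG.lm_totient, of_lm Pool.Agent.N733.TG.lm_sigma⟩,
    fun a d ha hd => ?_⟩
  · have e : d * (A * (sig n / M)) = sig n * A * d / M := by ring
    obtain ⟨K, hK, h2⟩ := Run7.h430.TW.Tup.one (n := n) hne (s := sig n / M) (div_nonneg hσ hM0.le) hA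
      (fun δ hδ => hcount hn hM δ hδ) (lm_of hf) (ex_of hF) hκ (by rw [e]; exact h1)
    exact ⟨K, hK, Pool.Agent.N826.IT.Orb.almostAll_mono h2 (fun m hm k hk a ha1 ha t ht => hgood t (hm k hk a ha1 ha t ht))⟩
  · have e : A * (sig n / M) = sig n * A / M := by ring
    have hlt : A * (sig n / M) < 1 := by
      rw [e, div_lt_one hM0]
      exact hAM
    obtain ⟨K, hK, h3⟩ := Run7.h430.TW.Tup.pairs (n := n) hne (s := sig n / M) (div_nonneg hσ hM0.le) hA hlt
      (fun δ hδ => hcount hn hM δ hδ)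
      L (lm_of hf) (lm_of hg) (ex_of hF) (ex_of hG) hκ (by rw [e]; exact h1) (by rw [e]; exact h2)
    refine ⟨K, hK, aap_of (fun δ hδ => ?_)⟩
    obtain ⟨N₀, hN₀⟩ := h3 δ hδ
    refine ⟨N₀, fun N N' hN hN' => le_trans ?_ (hN₀ N N' hN hN')⟩
    refine Nat.cast_le.2 (Run7.h430.TW.Pairs.card_mono2 (fun p _ hp hq => hp (fun k hk l hl a b ha1 ha hb1 hb t u ht hu
      ht1 hu1 h6 h7 => ?_)))
    exact hgood _ (hq k hk l hl a b ha1 ha hb1 hb t u ht hu ht1 hu1 h6 h7)
  · obtain ⟨h1, h2, h3⟩ := Pool.Agent.N733.TG.expanding_pow ha hd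
    exact ⟨h1, h2, h3⟩

end Pool.Agent.Results.MP_7ecdd4_nt.TotientOrbits
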